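import Pool.Agent.Y264.AN.Fin1
import Pool.Agent.Y264.AN.Fin2

/-!
# The discrepancy function is almost nowhere small

Tijdeman and Wagner (1980): for every sequence in `[0,1)` the star discrepancy of the first `n`
terms is at least `c log N` for all `n ≤ N` with at most `N^(7/8)` exceptions.  This file proves
the counterpart for the `L_1` norm (and in measure), in every dimension and with `N^ε` exceptions
for every `ε > 0`.

* Point sets.  Let `d ≥ 1` and let `ξ` be an `m`-point set in dimension `d + 1` with local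
  discrepancy function `D`.  Fix a coordinate axis `k`.  For all `t ∈ [0,1]` outside at most `m^ε`
  intervals of length `1 / m` the slice `D(·, t)` of `D` at height `t` in the direction `k`
  satisfies `|D(y, t)| ≥ c m⁻¹ (log m)^(d/2)` on a set of `y ∈ [0,1]^d` of measure at least `c`;
  moreover `D(·, t)` may be replaced by `D(·, t) - f` for any measurable function `f` of `y`
  (the exceptional intervals depend on `f`).  In particular the `L_1` norm of the slice is at least
  `c m⁻¹ (log m)^(d/2)` for all `t ∈ [0,1]` outside a set of measure `m^(ε - 1)`.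
* Sequences.  For every sequence in `ℝ^d` with arbitrary real weights, every measurable function
  `f` and every interval of `N` consecutive integers, all but `N^ε` of the discrepancy functions
  `D_n` of this interval are at distance at least `c (log N)^(d/2)` from `f`, in measure and in
  `L_1`.
-/

set_option autoImplicit false

open MeasureTheory

namespace Pool.Agent.Results.MP_173de9_an.AlmostNowhereSmall

/-- The local discrepancy function of the `m`-point set `ξ`:
`∏ x_j - (1/m) ∑ χ_[0,x](ξ^μ)`. -/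
noncomputable def localDisc {m d : ℕ} (ξ : Fin m → Fin d → ℝ) (x : Fin d → ℝ) : ℝ :=
  ∏ j, x j - (1 / (m : ℝ)) * ∑ μ, (if ∀ j, ξ μ j ≤ x j then (1 : ℝ) else 0)

/-- The discrepancy function of the first `n` terms of the sequence `x` with weights `w`:
`∑_{i < n} w_i χ_[0,y](x_i) - n y_1 ⋯ y_d`. -/
noncomputable def seqDisc {d : ℕ} (w : ℕ → ℝ) (x : ℕ → Fin d → ℝ) (n : ℕ) (y : Fin d → ℝ) : ℝ :=
  ∑ i ∈ Finset.range n, (if ∀ j, x i j ≤ y j then w i else 0) - n * ∏ j, y j

/-- The slice of a function on `ℝ^(d+1)` at height `t` in the direction of the axis `k`. -/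
noncomputable def slice {d : ℕ} (D : (Fin (d + 1) → ℝ) → ℝ) (k : Fin (d + 1)) (t : ℝ)
    (y : Fin d → ℝ) : ℝ :=
  D (Fin.insertNth (α := fun _ => ℝ) k t y)

/-- The measure of the set of the points `y` of the unit cube with `|g y| ≥ θ`. -/
noncomputable def largeSet {d : ℕ} (g : (Fin d → ℝ) → ℝ) (θ : ℝ) : ENNReal :=
  volume {y : Fin d → ℝ | y ∈ Set.Icc (0 : Fin d → ℝ) 1 ∧ θ ≤ |g y|}

/-- The `L_1` norm over the unit cube. -/
noncomputable def normOne {d : ℕ} (g : (Fin d → ℝ) → ℝ) : ENNReal :=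
  ∫⁻ y in Set.Icc (0 : Fin d → ℝ) 1, ENNReal.ofReal |g y|

/-! ### Auxiliary facts -/

theorem largeSet_lt {d : ℕ} (g : (Fin d → ℝ) → ℝ) (hg : Measurable g) (a θ : ℝ) (ha : 0 < a)
    (hθ : 0 ≤ θ) (h : normOne g < ENNReal.ofReal (a * θ)) :
    largeSet g θ < ENNReal.ofReal a := by
  by_contra hcon
  push Not at hcon
  have h1 := mul_meas_ge_le_lintegral
    (μ := (volume : Measure (Fin d → ℝ)).restrict (Set.Icc (0 : Fin d → ℝ) 1))
    (f := fun y => ENNReal.ofReal |g y|) hg.abs.ennreal_ofReal (ENNReal.ofReal θ)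
  have h2 : {x : Fin d → ℝ | ENNReal.ofReal θ ≤ ENNReal.ofReal |g x|} = {x | θ ≤ |g x|} := by
    ext x
    simp only [Set.mem_ofPred_eq]
    exact ENNReal.ofReal_le_ofReal_iff (abs_nonneg _)
  rw [h2, Measure.restrict_apply (measurableSet_le measurable_const hg.abs)] at h1
  have h3 : volume ({x : Fin d → ℝ | θ ≤ |g x|} ∩ Set.Icc (0 : Fin d → ℝ) 1) = largeSet g θ := by
    unfold largeSet
    congr 1
    ext x
    simp only [Set.mem_inter_iff, Set.mem_ofPred_eq]
    exact and_comm
  rw [h3] at h1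
  have h4 : ENNReal.ofReal (a * θ) ≤ normOne g := by
    refine le_trans ?_ h1
    rw [mul_comm a θ, ENNReal.ofReal_mul hθ]
    exact mul_le_mul_right hcon _
  exact absurd (lt_of_le_of_lt h4 h) (lt_irrefl _)

theorem measurable_slice {m d : ℕ} (ξ : Fin m → Fin (d + 1) → ℝ) (k : Fin (d + 1)) (t : ℝ) :
    Measurable (slice (localDisc ξ) k t) := by
  have h0 : slice (localDisc ξ) k t = fun y : Fin d → ℝ => t * ∏ i, y i - (1 / (m : ℝ)) *
      ∑ μ, (if ξ μ k ≤ t ∧ ∀ i, ξ μ (k.succAbove i) ≤ y i then (1 : ℝ) else 0) := by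
    funext y
    exact Pool.Agent.Y264.AN.lDisc_insertNth ξ k t y
  rw [h0]
  apply Measurable.sub
  · exact measurable_const.mul (Finset.measurable_fun_prod _ fun i _ => measurable_pi_apply i)
  · apply Measurable.const_mul
    apply Finset.measurable_fun_sum
    intro μ _
    apply Measurable.ite _ measurable_const measurable_const
    by_cases h : ξ μ k ≤ t
    · have : {y : Fin d → ℝ | ξ μ k ≤ t ∧ ∀ i, ξ μ (k.succAbove i) ≤ y i} =
          Set.Ici (fun i => ξ μ (k.succAbove i)) := by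
        ext y
        simp only [Set.mem_ofPred_eq, Set.mem_Ici, Pi.le_def]
        exact ⟨fun h2 => h2.2, fun h2 => ⟨h, h2⟩⟩
      rw [this]
      exact measurableSet_Ici
    · have : {y : Fin d → ℝ | ξ μ k ≤ t ∧ ∀ i, ξ μ (k.succAbove i) ≤ y i} = ∅ := by
        ext y
        simp only [Set.mem_ofPred_eq, Set.mem_empty_iff_false, iff_false]
        exact fun h2 => h h2.1
      rw [this]
      exact MeasurableSet.empty

theorem measurable_seqDisc {d : ℕ} (w : ℕ → ℝ) (x : ℕ → Fin d → ℝ) (n : ℕ) :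
    Measurable (seqDisc w x n) := by
  unfold seqDisc
  apply Measurable.sub
  · apply Finset.measurable_fun_sum
    intro i _
    apply Measurable.ite _ measurable_const measurable_const
    have : {y : Fin d → ℝ | ∀ j, x i j ≤ y j} = Set.Ici (x i) := by
      ext y
      simp only [Set.mem_ofPred_eq, Set.mem_Ici, Pi.le_def]
    rw [this]
    exact measurableSet_Ici
  · exact measurable_const.mul (Finset.measurable_fun_prod _ fun i _ => measurable_pi_apply i)

open scoped Classical in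
/-- **The discrepancy function is almost nowhere small**, in measure and in `L_1`, for point sets
in dimension `d + 1` (slices) and for sequences in dimension `d` (times). -/
theorem result (d : ℕ) (hd : 1 ≤ d) (ε : ℝ) (hε : 0 < ε) :
    ∃ c : ℝ, 0 < c ∧ ∃ N₀ : ℕ,
      -- point sets, in measure
      (∀ m : ℕ, N₀ ≤ m → ∀ (ξ : Fin m → Fin (d + 1) → ℝ) (k : Fin (d + 1))
        (f : (Fin d → ℝ) → ℝ), Measurable f →
        ∃ Z : Finset ℝ, (Z.card : ℝ) ≤ (m : ℝ) ^ ε ∧ ∀ t ∈ Set.Icc (0 : ℝ) 1,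
          (∀ z ∈ Z, t ∉ Set.Ico z (z + 1 / m)) →
          ENNReal.ofReal c ≤ largeSet (fun y => slice (localDisc ξ) k t y - f y)
            (c * (Real.log m) ^ ((d : ℝ) / 2) / m)) ∧
      -- point sets, in `L_1`
      (∀ m : ℕ, N₀ ≤ m → ∀ (ξ : Fin m → Fin (d + 1) → ℝ) (k : Fin (d + 1))
        (f : (Fin d → ℝ) → ℝ), Measurable f →
        volume {t : ℝ | t ∈ Set.Icc (0 : ℝ) 1 ∧
          normOne (fun y => slice (localDisc ξ) k t y - f y) <
            ENNReal.ofReal (c * (Real.log m) ^ ((d : ℝ) / 2) / m)} ≤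
          ENNReal.ofReal ((m : ℝ) ^ (ε - 1))) ∧
      -- sequences, in measure
      (∀ (w : ℕ → ℝ) (x : ℕ → Fin d → ℝ) (f : (Fin d → ℝ) → ℝ), Measurable f →
        ∀ M N : ℕ, N₀ ≤ N →
        (((Finset.Ioc M (M + N)).filter (fun n =>
          largeSet (fun y => seqDisc w x n y - f y) (c * (Real.log N) ^ ((d : ℝ) / 2)) <
            ENNReal.ofReal c)).card : ℝ) ≤ (N : ℝ) ^ ε) ∧
      -- sequences, in `L_1`
      (∀ (w : ℕ → ℝ) (x : ℕ → Fin d → ℝ) (f : (Fin d → ℝ) → ℝ), Measurable f →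
        ∀ M N : ℕ, N₀ ≤ N →
        (((Finset.Ioc M (M + N)).filter (fun n =>
          normOne (fun y => seqDisc w x n y - f y) <
            ENNReal.ofReal (c * (Real.log N) ^ ((d : ℝ) / 2)))).card : ℝ) ≤ (N : ℝ) ^ ε) := by
  obtain ⟨c₁, hc₁, N₁, h₁⟩ := Pool.Agent.Y264.AN.pts_measure d hd ε hε
  obtain ⟨c₂, hc₂, N₂, h₂⟩ := Pool.Agent.Y264.AN.seq_measure d hd ε hε
  set a : ℝ := min (min c₁ c₂) 1 with ha
  have ha0 : 0 < a := by positivity
  have ha1 : a ≤ 1 := min_le_right _ _
  have hac₁ : a ≤ c₁ := (min_le_left _ _).trans (min_le_left _ _)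
  have hac₂ : a ≤ c₂ := (min_le_left _ _).trans (min_le_right _ _)
  have haa : a * a ≤ a := by nlinarith
  have haa0 : 0 < a * a := by positivity
  refine ⟨a * a, haa0, max (max N₁ N₂) 2, ?_, ?_, ?_, ?_⟩
  · intro m hm ξ k f hf
    have hm1 : N₁ ≤ m := (le_max_left _ _).trans ((le_max_left _ _).trans hm)
    obtain ⟨Z, hZ1, hZ2⟩ := h₁ (a * a) (haa.trans hac₁) m hm1 ξ k f hf
    refine ⟨Z, hZ1, fun t ht hz => ?_⟩
    by_contra hcon
    push Not at hcon
    obtain ⟨z, hzZ, hz1, hz2⟩ := hZ2 t ht.1 ht.2 hcon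
    exact hz z hzZ ⟨hz1, hz2⟩
  · intro m hm ξ k f hf
    have hm1 : N₁ ≤ m := (le_max_left _ _).trans ((le_max_left _ _).trans hm)
    have hm2 : 2 ≤ m := (le_max_right _ _).trans hm
    have hmR : (1 : ℝ) ≤ m := by exact_mod_cast (by omega : 1 ≤ m)
    have hm0 : (0 : ℝ) < m := by linarith
    have hL : 0 ≤ (Real.log m) ^ ((d : ℝ) / 2) := Real.rpow_nonneg (Real.log_nonneg hmR) _
    obtain ⟨Z, hZ1, hZ2⟩ := h₁ a hac₁ m hm1 ξ k f hf
    have hsub : {t : ℝ | t ∈ Set.Icc (0 : ℝ) 1 ∧
          normOne (fun y => slice (localDisc ξ) k t y - f y) <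
            ENNReal.ofReal (a * a * (Real.log m) ^ ((d : ℝ) / 2) / m)} ⊆
        ⋃ z ∈ Z, Set.Ico z (z + 1 / m) := by
      rintro t ⟨ht, hn⟩
      have e1 : a * a * (Real.log m) ^ ((d : ℝ) / 2) / m =
          a * (a * (Real.log m) ^ ((d : ℝ) / 2) / m) := by ring
      rw [e1] at hn
      have h3 := largeSet_lt _ ((measurable_slice ξ k t).sub hf) a _ ha0 (by positivity) hn
      obtain ⟨z, hzZ, hz1, hz2⟩ := hZ2 t ht.1 ht.2 h3
      rw [Set.mem_iUnion₂]
      exact ⟨z, hzZ, hz1, hz2⟩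
    calc volume {t : ℝ | t ∈ Set.Icc (0 : ℝ) 1 ∧
          normOne (fun y => slice (localDisc ξ) k t y - f y) <
            ENNReal.ofReal (a * a * (Real.log m) ^ ((d : ℝ) / 2) / m)}
        ≤ volume (⋃ z ∈ Z, Set.Ico z (z + 1 / (m : ℝ))) := measure_mono hsub
      _ ≤ ∑ z ∈ Z, volume (Set.Ico z (z + 1 / (m : ℝ))) := measure_biUnion_finset_le _ _
      _ = ∑ _z ∈ Z, ENNReal.ofReal (1 / (m : ℝ)) := by
          apply Finset.sum_congr rfl
          intro z _
          rw [Real.volume_Ico]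
          congr 1
          ring
      _ = ENNReal.ofReal ((Z.card : ℝ) * (1 / (m : ℝ))) := by
          rw [Finset.sum_const, nsmul_eq_mul, ENNReal.ofReal_mul (Nat.cast_nonneg _),
            ENNReal.ofReal_natCast]
      _ ≤ ENNReal.ofReal ((m : ℝ) ^ (ε - 1)) := by
          apply ENNReal.ofReal_le_ofReal
          rw [Real.rpow_sub hm0, Real.rpow_one, mul_one_div]
          exact div_le_div_of_nonneg_right hZ1 hm0.le
  · intro w x f hf M N hN
    have hN2 : N₂ ≤ N := (le_max_right _ _).trans ((le_max_left _ _).trans hN)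
    exact h₂ (a * a) (haa.trans hac₂) w x f hf M N hN2
  · intro w x f hf M N hN
    have hN2 : N₂ ≤ N := (le_max_right _ _).trans ((le_max_left _ _).trans hN)
    have hN2' : 2 ≤ N := (le_max_right _ _).trans hN
    have hNR : (1 : ℝ) ≤ N := by exact_mod_cast (by omega : 1 ≤ N)
    have hL : 0 ≤ (Real.log N) ^ ((d : ℝ) / 2) := Real.rpow_nonneg (Real.log_nonneg hNR) _
    refine le_trans ?_ (h₂ a hac₂ w x f hf M N hN2)
    norm_cast
    apply Finset.card_le_card
    intro n hn
    rw [Finset.mem_filter] at hn ⊢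
    refine ⟨hn.1, ?_⟩
    have e1 : a * a * (Real.log N) ^ ((d : ℝ) / 2) = a * (a * (Real.log N) ^ ((d : ℝ) / 2)) := by
      ring
    have h3 := hn.2
    rw [e1] at h3
    exact largeSet_lt _ ((measurable_seqDisc w x n).sub hf) a _ ha0 (by positivity) h3

end Pool.Agent.Results.MP_173de9_an.AlmostNowhereSmall
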