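import Pool.Agent.Y873.LQ.Target
import Pool.Agent.Y873.LQ.Lower
import Pool.Agent.H730R2.LD.Meas

set_option autoImplicit false

/-!
# The order of the optimal `L_q` star discrepancy for every averaging measure and every target

The order `(ln m)^((d-1)/2) / m` of the optimal `L_1` star discrepancy persists when the Lebesgue
measure is replaced, both as the measure in which the discrepancy is averaged and as the target
measure, by other probability measures: the upper bound holds for every averaging measure and every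
product target with one constant, the lower bound for every target and every averaging measure whose
absolutely continuous parts overlap, in measure and hence in `L_q` for every `q > 0`.
-/

namespace Pool.Agent.Results.MP_173de9_an.EveryMeasure

open MeasureTheory Filter Finset

/-- The local discrepancy `μ([0,x]) - (1/m) Σ_j χ_{[0,x]}(ξ^j)` at `x` of the `m` points `ξ` with
respect to the target measure `μ`. -/
noncomputable def localDisc {m d : ℕ} (μ : Measure (Fin d → ℝ)) (ξ : Fin m → Fin d → ℝ)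
    (x : Fin d → ℝ) : ℝ :=
  (μ (Set.Icc (0 : Fin d → ℝ) x)).toReal -
    (1 / (m:ℝ)) * ∑ j : Fin m, (Set.Icc (0 : Fin d → ℝ) x).indicator (fun _ => (1:ℝ)) (ξ j)

/-- The optimal `L_q` discrepancy for the target `μ` and the averaging measure `ν`: the infimum over
all `m`-point sets in `[0,1]^d` (repetitions allowed) of the `L_q(ν)` norm of the local discrepancy. -/
noncomputable def optDisc {d : ℕ} (μ ν : Measure (Fin d → ℝ)) (q : ENNReal) (m : ℕ) : ENNReal :=
  ⨅ (ξ : Fin m → Fin d → ℝ) (_ : ∀ j, ξ j ∈ Set.Icc (0 : Fin d → ℝ) 1),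
    eLpNorm (localDisc μ ξ) q ν

/-- Lebesgue measure on `[0,1]^d`. -/
noncomputable def leb (d : ℕ) : Measure (Fin d → ℝ) := volume.restrict (Set.Icc (0 : Fin d → ℝ) 1)

/-- The mass of the absolutely continuous part of `ν` on the set on which the density of the
absolutely continuous part of `μ` does not vanish. -/
noncomputable def overlap {d : ℕ} (μ ν : Measure (Fin d → ℝ)) : ENNReal :=
  ∫⁻ x in {x | μ.rnDeriv volume x ≠ 0}, ν.rnDeriv volume x

theorem leb_prob (d : ℕ) : IsProbabilityMeasure (leb d) := by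
  constructor
  unfold leb
  rw [Measure.restrict_apply_univ, Real.volume_Icc_pi]
  simp

theorem leb_compl (d : ℕ) : leb d (Set.Icc (0 : Fin d → ℝ) 1)ᶜ = 0 := by
  unfold leb
  rw [Measure.restrict_apply measurableSet_Icc.compl]
  simp

theorem leb_eq (d : ℕ) : leb d =
    Measure.pi (fun _ : Fin d => (volume : Measure ℝ).restrict (Set.Icc (0 : ℝ) 1)) := by
  unfold leb
  rw [← Measure.restrict_pi_pi, ← Set.pi_univ_Icc]
  rfl

theorem disc_eq {m d : ℕ} (hm : 0 < m) (ξ : Fin m → Fin d → ℝ)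
    (hξ : ∀ j, ξ j ∈ Set.Icc (0 : Fin d → ℝ) 1) (μ : Measure (Fin d → ℝ))
    (hμ : μ (Set.Icc (0 : Fin d → ℝ) 1)ᶜ = 0) (x : Fin d → ℝ) :
    |TH635.NS.DM univ (fun _ => 1) ξ m μ x| = m * |localDisc μ ξ x| := by
  have hm0 : (0 : ℝ) < m := by exact_mod_cast hm
  have h : localDisc μ ξ x = -(1 / (m:ℝ)) * TH635.NS.DM univ (fun _ => 1) ξ m μ x :=
    Y873.LQ.tD_eq hm ξ hξ μ hμ x
  rw [h, abs_mul, abs_neg, abs_of_pos (by positivity : (0:ℝ) < 1 / (m:ℝ))]
  field_simp

theorem disc_leb {m d : ℕ} (hm : 0 < m) (ξ : Fin m → Fin d → ℝ)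
    (hξ : ∀ j, ξ j ∈ Set.Icc (0 : Fin d → ℝ) 1) (x : Fin d → ℝ)
    (hx : x ∈ Set.Icc (0 : Fin d → ℝ) 1) :
    |H736R2.Lone.disc Finset.univ (fun _ => 1) ξ (m : ℝ) x| = m * |localDisc (leb d) ξ x| := by
  classical
  have hm0 : (0 : ℝ) < m := by exact_mod_cast hm
  rw [← abs_of_pos hm0, ← abs_mul, abs_of_pos hm0, ← abs_neg]
  congr 1
  have hv : (leb d (Set.Icc (0 : Fin d → ℝ) x)).toReal = ∏ i, x i := by
    unfold leb
    rw [Measure.restrict_apply measurableSet_Icc, Set.inter_eq_left.2 (Set.Icc_subset_Icc_right hx.2),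
      Real.volume_Icc_pi, ENNReal.toReal_prod]
    apply Finset.prod_congr rfl
    intro i _
    rw [ENNReal.toReal_ofReal] <;> simp [hx.1 i] <;> exact hx.1 i
  unfold localDisc H736R2.Lone.disc
  rw [hv]
  simp only [Y873.LQ.ind_eq _ _ (hξ _)]
  field_simp
  ring

theorem measurable_localDisc {m d : ℕ} (hm : 0 < m) (ξ : Fin m → Fin d → ℝ)
    (hξ : ∀ j, ξ j ∈ Set.Icc (0 : Fin d → ℝ) 1) (μ : Measure (Fin d → ℝ)) [IsFiniteMeasure μ]
    (hμ : μ (Set.Icc (0 : Fin d → ℝ) 1)ᶜ = 0) : Measurable (localDisc μ ξ) :=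
  Y873.LQ.measurable_tD hm ξ hξ μ hμ

/-- from a bound in measure to a bound for the `L_q` norm -/
theorem norm_ge {d : ℕ} (ν : Measure (Fin d → ℝ)) (f : (Fin d → ℝ) → ℝ)
    (hf : AEStronglyMeasurable f ν) (θ : ℝ) (b : ENNReal) (h : b ≤ ν {x | θ ≤ |f x|})
    (q : ENNReal) (hq0 : q ≠ 0) (hq1 : q ≠ ⊤) :
    ENNReal.ofReal θ * b ^ (1 / q.toReal) ≤ eLpNorm f q ν := by
  have hpos : 0 < q.toReal := ENNReal.toReal_pos hq0 hq1
  refine le_trans ?_ (pow_mul_meas_ge_le_eLpNorm ν hq0 hq1 hf (ENNReal.ofReal θ ^ q.toReal))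
  rw [ENNReal.mul_rpow_of_nonneg _ _ (by positivity), ← ENNReal.rpow_mul,
    mul_one_div_cancel hpos.ne', ENNReal.rpow_one]
  gcongr
  refine h.trans (measure_mono ?_)
  intro x hx
  have hx' : θ ≤ |f x| := hx
  show ENNReal.ofReal θ ^ q.toReal ≤ ‖f x‖ₑ ^ q.toReal
  rw [← ofReal_norm, Real.norm_eq_abs]
  gcongr

/-- **Theorem.** For every `d ≥ 1` there are `c, C > 0` (write `L_m = (ln m)^((d-1)/2) / m`) such that:

(1) for every product `μ` of probability measures on `[0,1]`, every probability measure `ν` on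
`[0,1]^d`, all `m ≥ 2` and all `q ≤ 2` the optimal `L_q(ν)` discrepancy for the target `μ` is at most
`C L_m`;

(2) for all probability measures `μ`, `ν` on `[0,1]^d` there is `m₀` such that for all `m ≥ m₀` every
`m`-point set in `[0,1]^d` has local discrepancy for the target `μ` at least `c L_m` in absolute value
on a set of `ν`-measure at least `c a`, `a = overlap μ ν`, so that the optimal `L_q(ν)` discrepancy is at
least `c L_m (c a)^(1/q)` for all `0 < q ≤ 2`;

(3) for the Lebesgue measure (the classical star discrepancy) the bound in measure and the bounds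
`c L_m ≤ D(m,d)_q ≤ C L_m`, `1 ≤ q ≤ 2`, hold for all `m ≥ 2`. -/
theorem result (d : ℕ) (hd : 1 ≤ d) : ∃ c C : ℝ, 0 < c ∧ 0 < C ∧
    (∀ (μ : Fin d → Measure ℝ), (∀ i, IsProbabilityMeasure (μ i)) →
      (∀ i, μ i (Set.Icc (0 : ℝ) 1)ᶜ = 0) →
      ∀ ν : Measure (Fin d → ℝ), IsProbabilityMeasure ν → ν (Set.Icc (0 : Fin d → ℝ) 1)ᶜ = 0 →
      ∀ m : ℕ, 2 ≤ m → ∀ q : ENNReal, q ≤ 2 →
        optDisc (Measure.pi μ) ν q m ≤
          ENNReal.ofReal (C * (Real.log m) ^ (((d : ℝ) - 1) / 2) / m)) ∧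
    (∀ μ ν : Measure (Fin d → ℝ), IsProbabilityMeasure μ → IsProbabilityMeasure ν →
      μ (Set.Icc (0 : Fin d → ℝ) 1)ᶜ = 0 → ν (Set.Icc (0 : Fin d → ℝ) 1)ᶜ = 0 →
      ∃ m₀ : ℕ, ∀ m : ℕ, m₀ ≤ m →
        (∀ ξ : Fin m → Fin d → ℝ, (∀ j, ξ j ∈ Set.Icc (0 : Fin d → ℝ) 1) →
          ENNReal.ofReal c * overlap μ ν ≤
            ν {x | c * (Real.log m) ^ (((d : ℝ) - 1) / 2) / m ≤ |localDisc μ ξ x|}) ∧
        ∀ q : ENNReal, 0 < q → q ≤ 2 →
          ENNReal.ofReal (c * (Real.log m) ^ (((d : ℝ) - 1) / 2) / m) *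
            (ENNReal.ofReal c * overlap μ ν) ^ (1 / q.toReal) ≤ optDisc μ ν q m) ∧
    (∀ m : ℕ, 2 ≤ m →
      (∀ ξ : Fin m → Fin d → ℝ, (∀ j, ξ j ∈ Set.Icc (0 : Fin d → ℝ) 1) →
        ENNReal.ofReal c ≤
          leb d {x | c * (Real.log m) ^ (((d : ℝ) - 1) / 2) / m ≤ |localDisc (leb d) ξ x|}) ∧
      ∀ q : ENNReal, 1 ≤ q → q ≤ 2 →
        ENNReal.ofReal (c * (Real.log m) ^ (((d : ℝ) - 1) / 2) / m) ≤
          optDisc (leb d) (leb d) q m ∧
        optDisc (leb d) (leb d) q m ≤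
          ENNReal.ofReal (C * (Real.log m) ^ (((d : ℝ) - 1) / 2) / m)) := by
  classical
  obtain ⟨C, hC, HU⟩ := Y873.LQ.upper_target d hd
  obtain ⟨c₁, hc₁, HL⟩ := Y873.LQ.lower_meas d hd
  obtain ⟨ε, hε, c₂, hc₂, HM⟩ := H730R2.LD.measure_sharp d hd 1
  set c : ℝ := min c₁ (min ε (min c₂ (c₂ * ε))) with hc
  have hc0 : 0 < c := by positivity
  have hcc₁ : c ≤ c₁ := min_le_left _ _
  have hcε : c ≤ ε := (min_le_right _ _).trans (min_le_left _ _)
  have hcc₂ : c ≤ c₂ := (min_le_right _ _).trans ((min_le_right _ _).trans (min_le_left _ _))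
  have hcce : c ≤ c₂ * ε := (min_le_right _ _).trans ((min_le_right _ _).trans (min_le_right _ _))
  -- the upper bound
  have hup : ∀ (μ : Fin d → Measure ℝ), (∀ i, IsProbabilityMeasure (μ i)) →
      (∀ i, μ i (Set.Icc (0 : ℝ) 1)ᶜ = 0) →
      ∀ ν : Measure (Fin d → ℝ), IsProbabilityMeasure ν → ν (Set.Icc (0 : Fin d → ℝ) 1)ᶜ = 0 →
      ∀ m : ℕ, 2 ≤ m → ∀ q : ENNReal, q ≤ 2 →
        optDisc (Measure.pi μ) ν q m ≤
          ENNReal.ofReal (C * (Real.log m) ^ (((d : ℝ) - 1) / 2) / m) := by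
    intro μ hμ hμ1 ν hν hν1 m hm q hq
    obtain ⟨ξ, hξ, hb⟩ := HU μ hμ hμ1 ν hν hν1 m hm
    unfold optDisc
    refine (iInf₂_le ξ hξ).trans (le_trans ?_ hb)
    exact eLpNorm_le_eLpNorm_of_exponent_le hq
      (measurable_localDisc (by omega) ξ hξ _ (Y873.LQ.pi_compl μ hμ1)).aestronglyMeasurable
  refine ⟨c, C, hc0, hC, hup, ?_, ?_⟩
  · -- the lower bound for every pair
    intro μ ν hμ hν hμ1 hν1
    obtain ⟨N₀, hN₀⟩ := eventually_atTop.1
      ((tendsto_natCast_atTop_atTop (R := ℝ)).eventually (HL μ ν))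
    refine ⟨max N₀ 1, fun m hm => ?_⟩
    have hm1 : 1 ≤ m := le_trans (le_max_right _ _) hm
    have hmN : N₀ ≤ m := le_trans (le_max_left _ _) hm
    have hm0 : (0 : ℝ) < m := by exact_mod_cast (by omega : 0 < m)
    have hL : 0 ≤ (Real.log m) ^ (((d : ℝ) - 1) / 2) :=
      Real.rpow_nonneg (Real.log_natCast_nonneg m) _
    have hmeas : ∀ ξ : Fin m → Fin d → ℝ, (∀ j, ξ j ∈ Set.Icc (0 : Fin d → ℝ) 1) →
        ENNReal.ofReal c * overlap μ ν ≤
          ν {x | c * (Real.log m) ^ (((d : ℝ) - 1) / 2) / m ≤ |localDisc μ ξ x|} := by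
      intro ξ hξ
      refine le_trans ?_ ((hN₀ m hmN (Fin m) univ ξ).trans (measure_mono ?_))
      · unfold overlap
        gcongr
      · intro x hx
        have hx' : c₁ * (Real.log m) ^ (((d : ℝ) - 1) / 2) ≤
            |TH635.NS.DM univ (fun _ => 1) ξ m μ x| := hx
        rw [disc_eq (by omega) ξ hξ μ hμ1 x] at hx'
        show c * (Real.log m) ^ (((d : ℝ) - 1) / 2) / m ≤ |localDisc μ ξ x|
        rw [div_le_iff₀' hm0]
        refine le_trans ?_ hx'
        gcongr
    refine ⟨hmeas, fun q hq0 hq2 => ?_⟩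
    unfold optDisc
    refine le_iInf₂ fun ξ hξ => ?_
    exact norm_ge ν _ (measurable_localDisc (by omega) ξ hξ μ hμ1).aestronglyMeasurable _ _
      (hmeas ξ hξ) q hq0.ne' (ne_top_of_le_ne_top (by norm_num) hq2)
  · -- Lebesgue measure
    intro m hm
    have hm0 : (0 : ℝ) < m := by exact_mod_cast (by omega : 0 < m)
    have hL : 0 ≤ (Real.log m) ^ (((d : ℝ) - 1) / 2) :=
      Real.rpow_nonneg (Real.log_natCast_nonneg m) _
    have hprob := leb_prob d
    have hmeas : ∀ ξ : Fin m → Fin d → ℝ, (∀ j, ξ j ∈ Set.Icc (0 : Fin d → ℝ) 1) →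
        ENNReal.ofReal ε ≤
          leb d {x | c₂ * (Real.log m) ^ (((d : ℝ) - 1) / 2) / m ≤ |localDisc (leb d) ξ x|} := by
      intro ξ hξ
      have h := HM m (by exact_mod_cast hm) (Fin m) Finset.univ (fun _ => 1) ξ (by simp)
      refine h.trans ?_
      have hms : MeasurableSet
          {x | c₂ * (Real.log m) ^ (((d : ℝ) - 1) / 2) / m ≤ |localDisc (leb d) ξ x|} :=
        measurableSet_le measurable_const
          (measurable_localDisc (by omega) ξ hξ (leb d) (leb_compl d)).abs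
      conv_rhs => unfold leb
      rw [Measure.restrict_apply (by exact hms)]
      apply measure_mono
      rintro x ⟨hx1, hx2⟩
      refine ⟨?_, hx1⟩
      rw [disc_leb (by omega) ξ hξ x hx1] at hx2
      show c₂ * (Real.log m) ^ (((d : ℝ) - 1) / 2) / m ≤ |localDisc (leb d) ξ x|
      rw [div_le_iff₀' hm0]
      exact hx2
    refine ⟨fun ξ hξ => ?_, fun q hq1 hq2 => ⟨?_, ?_⟩⟩
    · refine (ENNReal.ofReal_le_ofReal hcε).trans ((hmeas ξ hξ).trans (measure_mono ?_))
      intro x hx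
      have hx' : c₂ * (Real.log m) ^ (((d : ℝ) - 1) / 2) / m ≤ |localDisc (leb d) ξ x| := hx
      show c * (Real.log m) ^ (((d : ℝ) - 1) / 2) / m ≤ |localDisc (leb d) ξ x|
      refine le_trans ?_ hx'
      gcongr
    · unfold optDisc
      refine le_iInf₂ fun ξ hξ => ?_
      have hms := (measurable_localDisc (by omega) ξ hξ (leb d) (leb_compl d)).aestronglyMeasurable
        (μ := leb d)
      refine le_trans ?_ (eLpNorm_le_eLpNorm_of_exponent_le hq1 hms)
      refine le_trans ?_ (norm_ge (leb d) _ hms _ _ (hmeas ξ hξ) 1 one_ne_zero ENNReal.one_ne_top)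
      rw [ENNReal.toReal_one, one_div_one, ENNReal.rpow_one, ← ENNReal.ofReal_mul (by positivity)]
      apply ENNReal.ofReal_le_ofReal
      calc c * (Real.log m) ^ (((d : ℝ) - 1) / 2) / m
          ≤ (c₂ * ε) * (Real.log m) ^ (((d : ℝ) - 1) / 2) / m := by gcongr
        _ = _ := by ring
    · have h1 : IsProbabilityMeasure ((volume : Measure ℝ).restrict (Set.Icc (0 : ℝ) 1)) := by
        constructor
        rw [Measure.restrict_apply_univ, Real.volume_Icc]
        simp
      have h2 : (volume : Measure ℝ).restrict (Set.Icc (0 : ℝ) 1) (Set.Icc (0 : ℝ) 1)ᶜ = 0 := by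
        rw [Measure.restrict_apply measurableSet_Icc.compl]
        simp
      have h := hup (fun _ => (volume : Measure ℝ).restrict (Set.Icc (0 : ℝ) 1)) (fun _ => h1)
        (fun _ => h2) (leb d) hprob (leb_compl d) m hm q hq2
      rwa [← leb_eq] at h

end Pool.Agent.Results.MP_173de9_an.EveryMeasure
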