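import Mathlib
import Pool.Agent.TH635.AN.Seq

/-!
# Discrepancy of sequences: lower bounds at almost every point, for a positive proportion of the times

For a sequence `ξ` in `ℝ^d`, real weights `w_n` and `x ∈ [0,1]^d` let
`D_N(x) = ∑_{n < N, ξ_n ∈ [0,x]} w_n - N x_1 ⋯ x_d` be the discrepancy of the first `N` terms at `x`
(here `[0,x]` stands for the set of points all of whose coordinates are at most those of `x`).

* Weights one: there is `c = c(d) > 0` such that for every sequence and almost every `x` the set of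
  the `N` with `|D_N(x)| ≥ c (log N)^(d/2)` has upper density at least `c`.
* Arbitrary real weights: there is `c = c(d) > 0` such that for every sequence, all weights and almost
  every `x` there is `b > 0` such that the set of the `N` with `|D_N(x)| ≥ b (log N)^(d/2)` has upper
  density at least `c`.
-/

set_option autoImplicit false

open MeasureTheory Filter Topology

namespace Pool.Agent.Results.MP_173de9_an.SequencesAlmostEverywhere

/-- The discrepancy `D_N(x)` of the first `N` terms of the sequence `ξ` with weights `w` at `x`. -/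
noncomputable def seqDisc {d : ℕ} (w : ℕ → ℝ) (ξ : ℕ → Fin d → ℝ) (N : ℕ) (x : Fin d → ℝ) : ℝ :=
  (∑ n ∈ Finset.range N, if ∀ i, ξ n i ≤ x i then w n else 0) - N * ∏ i, x i

lemma seqDisc_eq {d : ℕ} (w : ℕ → ℝ) (ξ : ℕ → Fin d → ℝ) (N : ℕ) (x : Fin d → ℝ) :
    Pool.Agent.H736R2.Lone.disc (Finset.range N) w ξ (N : ℝ) x = seqDisc w ξ N x := by
  unfold Pool.Agent.H736R2.Lone.disc seqDisc
  congr 1

lemma cnt_eq {d : ℕ} (b : ℝ) (w : ℕ → ℝ) (ξ : ℕ → Fin d → ℝ) (M : ℕ) (x : Fin d → ℝ) :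
    Pool.Agent.TH635.AN.cnt b w ξ M x = ((Finset.range M).filter (fun N : ℕ =>
      b * (Real.log N) ^ ((d : ℝ) / 2) ≤ |seqDisc w ξ N x|)).card := by
  unfold Pool.Agent.TH635.AN.cnt
  simp only [seqDisc_eq]

/-- **Lower bounds at almost every point.** -/
theorem result (d : ℕ) (hd : 1 ≤ d) :
    (∃ c : ℝ, 0 < c ∧ ∀ ξ : ℕ → Fin d → ℝ,
      ∀ᵐ x ∂(volume.restrict (Set.Icc (0 : Fin d → ℝ) 1)), ∃ᶠ M : ℕ in atTop,
        c * M ≤ (((Finset.range M).filter (fun N : ℕ =>
          c * (Real.log N) ^ ((d : ℝ) / 2) ≤ |seqDisc (fun _ => 1) ξ N x|)).card : ℝ)) ∧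
    (∃ c : ℝ, 0 < c ∧ ∀ (w : ℕ → ℝ) (ξ : ℕ → Fin d → ℝ),
      ∀ᵐ x ∂(volume.restrict (Set.Icc (0 : Fin d → ℝ) 1)), ∃ b : ℝ, 0 < b ∧
        ∃ᶠ M : ℕ in atTop,
        c * M ≤ (((Finset.range M).filter (fun N : ℕ =>
          b * (Real.log N) ^ ((d : ℝ) / 2) ≤ |seqDisc w ξ N x|)).card : ℝ)) := by
  refine ⟨?_, ?_⟩
  · obtain ⟨c, hc, h⟩ := Pool.Agent.TH635.AN.seq_one d hd
    refine ⟨c, hc, fun ξ => ?_⟩
    filter_upwards [h ξ] with x hx
    refine hx.mono fun M hM => ?_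
    rwa [cnt_eq] at hM
  · obtain ⟨c, hc, h⟩ := Pool.Agent.TH635.AN.seq_weighted d hd
    refine ⟨c, hc, fun w ξ => ?_⟩
    filter_upwards [h w ξ] with x hx
    obtain ⟨b, hb, hx⟩ := hx
    refine ⟨b, hb, hx.mono fun M hM => ?_⟩
    rwa [cnt_eq] at hM

end Pool.Agent.Results.MP_173de9_an.SequencesAlmostEverywhere
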